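import Pool.Agent.H14.FRU.Stmts
import Pool.Agent.H31.CT.CCZ

/-!
# Module CC1 of project FRU: antichains of matrices are images of `Z`
-/

set_option linter.unusedVariables false
set_option synthInstance.maxSize 100000

namespace SW.FU

section
variable {M : Type} [SetStr M] [ZF M]

theorem cc1_union (hcb : CbA M) {w I p p' : M} (hp : E p (P1 w I)) (hp' : E p' (P1 w I))
    (hagr : CczAgr p p') :
    E (bun p p') (P1 w I) ∧ Le1 (bun p p') p ∧ Le1 (bun p p') p' := by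
  rw [mem_P1'] at hp hp'
  obtain ⟨hs, a, s1, s2, s3, s4, s5, s6⟩ := hp
  obtain ⟨hs', a', t1, t2, t3, t4, t5, t6⟩ := hp'
  have hemp : ∀ b x, Et p emp b x ↔ Et p' emp b x := fun b x => hagr emp b x (Or.inl rfl)
  have ha : a = a' := by
    refine ext fun b => ⟨fun hb => ?_, fun hb => ?_⟩
    · obtain ⟨x, hx⟩ := s6 b hb
      obtain ⟨K, b', x', _, hb', _, h⟩ := t3 _ ((hemp b x).1 hx)
      rw [opair_inj, opair_inj] at h
      rw [h.2.1]; exact hb'
    · obtain ⟨x, hx⟩ := t6 b hb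
      obtain ⟨K, b', x', _, hb', _, h⟩ := s3 _ ((hemp b x).2 hx)
      rw [opair_inj, opair_inj] at h
      rw [h.2.1]; exact hb'
  subst ha
  have hrow : ∀ K b x, Et (bun p p') K b x → E b a := by
    intro K b x h
    rw [ccz_et] at h
    rcases h with h | h
    · obtain ⟨K', b', x', _, hb', _, h⟩ := s3 _ h
      rw [opair_inj, opair_inj] at h
      rw [h.2.1]; exact hb'
    · obtain ⟨K', b', x', _, hb', _, h⟩ := t3 _ h
      rw [opair_inj, opair_inj] at h
      rw [h.2.1]; exact hb'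
  refine ⟨?_, ?_, ?_⟩
  · rw [mem_P1']
    refine ⟨fun z hz => (mem_bun.1 hz).elim (hs z) (hs' z), a, s1, hcb.bun s2 t2,
      fun z hz => (mem_bun.1 hz).elim (s3 z) (t3 z), ?_, ?_, ?_⟩
    · intro K b x x' h h'
      rw [ccz_et] at h h'
      rcases h with h | h
      · rcases h' with h' | h'
        · exact s4 K b x x' h h'
        · exact s4 K b x x' h ((hagr K b x' (Or.inr ⟨ccz_col h, ccz_col h'⟩)).2 h')
      · rcases h' with h' | h'
        · exact s4 K b x x' ((hagr K b x (Or.inr ⟨ccz_col h', ccz_col h⟩)).2 h) h'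
        · exact t4 K b x x' h h'
    · intro K b hc hb
      obtain ⟨b', x', h⟩ := hc
      rw [ccz_et] at h
      rcases h with h | h
      · obtain ⟨x, hx⟩ := s5 K b (ccz_col h) hb
        exact ⟨x, ccz_et.2 (Or.inl hx)⟩
      · obtain ⟨x, hx⟩ := t5 K b (ccz_col h) hb
        exact ⟨x, ccz_et.2 (Or.inr hx)⟩
    · intro b hb
      obtain ⟨x, hx⟩ := s6 b hb
      exact ⟨x, ccz_et.2 (Or.inl hx)⟩
  · refine ⟨fun z hz => mem_bun.2 (Or.inl hz), fun K K' b x x' _ hK _ hx _ hn => ?_⟩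
    obtain ⟨y, hy⟩ := s5 K b hK (hrow K b x hx)
    exact absurd hy (hn y)
  · refine ⟨fun z hz => mem_bun.2 (Or.inr hz), fun K K' b x x' _ hK _ hx _ hn => ?_⟩
    obtain ⟨y, hy⟩ := t5 K b hK (hrow K b x hx)
    exact absurd hy (hn y)

end

/-- CC1 -/
theorem fru_cc1 (hacf : ACFStmt) (hcba : CBAStmt) (hzf : ZFXStmt) : CC1Stmt := by
  intro M _ _ w Z I A hB hI hA
  have zf := hzf M w Z hB
  have cb := hcba M
  obtain ⟨g, hg⟩ := hacf M A
  -- numberings of the columns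
  obtain ⟨N, hN⟩ := ncn_chs hacf A (fun p f : M => ∀ K : M, Col p K →
      ∃ n : M, E n om ∧ K = app f n) inferInstance (fun p hp => by
    have hpq := hA.1 p hp
    change E p (P1 w I) at hpq
    rw [mem_P1'] at hpq
    obtain ⟨_, a, _, hc, _⟩ := hpq
    obtain ⟨f, hf1, hf2⟩ := hc
    have hdf : Fn1 (fun n : M => the (fun K : M => ∃ b x : M, Et p K b x ∧
        E (opair (opair K (opair b x)) n) f)) := inferInstance
    refine ⟨gr om (fun n : M => the (fun K : M => ∃ b x : M, Et p K b x ∧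
        E (opair (opair K (opair b x)) n) f)), fun K hK => ?_⟩
    obtain ⟨b, x, h⟩ := hK
    obtain ⟨n, hn, hn'⟩ := hf1 _ h
    refine ⟨n, hn, ?_⟩
    rw [app_gr hdf hn]
    symm
    refine the_eq ⟨b, x, h, hn'⟩ ?_
    rintro K' ⟨b', x', h', h''⟩
    have := hf2 _ _ n h' h hn h'' hn'
    rw [opair_inj] at this
    exact this.1)
  have hVdf : Fn1 (fun z : M => cczV A g N z) := inferInstance
  have hS : ∀ K, E K (img Z (fun z : M => cczV A g N z)) ↔ ∃ z, E z Z ∧ K = cczV A g N z :=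
    fun K => mem_img' hVdf
  -- codes
  obtain ⟨Y, hY⟩ := ncn_chs hacf (img Z (fun z : M => cczV A g N z))
    (fun K z : M => E z Z ∧ K = cczV A g N z) inferInstance (fun K hK => (hS K).1 hK)
  have hPhidf : Fn1 (fun c : M => cczPhi A g
      (img c (fun t : M => opair (cczV A g N (ccz_fst t)) (ccz_snd t)))) := inferInstance
  refine ⟨gr Z (fun c : M => cczPhi A g
      (img c (fun t : M => opair (cczV A g N (ccz_fst t)) (ccz_snd t)))), fun p hp => ?_⟩
  have hpq0 : E p (P1 w I) := hA.1 p hp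
  obtain ⟨_, a, s1, s2, s3, s4, s5, s6⟩ := mem_P1'.1 hpq0
  -- the part with columns in `S`
  obtain ⟨r, hr⟩ : ∃ r : M, ∀ t, E t r ↔ E t p ∧
      E (ccz_fst t) (img Z (fun z : M => cczV A g N z)) :=
    ⟨sep p (fun t : M => E (ccz_fst t) (img Z (fun z : M => cczV A g N z))),
      fun t => mem_sep' inferInstance⟩
  have hrp : Sub r p := fun t ht => ((hr t).1 ht).1
  have hrE : ∀ K b x, Et r K b x ↔ Et p K b x ∧ E K (img Z (fun z : M => cczV A g N z)) := by
    intro K b x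
    unfold Et
    rw [hr, ccz_fst_op]
  have hcdf : Fn1 (fun t : M => opair (app Y (ccz_fst t)) (ccz_snd t)) := inferInstance
  have hc : ∀ t, E t (img r (fun t : M => opair (app Y (ccz_fst t)) (ccz_snd t))) ↔
      ∃ s, E s r ∧ t = opair (app Y (ccz_fst s)) (ccz_snd s) := fun t => mem_img' hcdf
  obtain ⟨c, hcdef⟩ : ∃ c : M, c = img r (fun t : M => opair (app Y (ccz_fst t)) (ccz_snd t)) :=
    ⟨_, rfl⟩
  rw [← hcdef] at hc
  have hcZ : E c Z := by
    refine hB.sc c (fun t ht => ?_) ?_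
    · obtain ⟨s, hs, rfl⟩ := (hc t).1 ht
      obtain ⟨hsp, hsS⟩ := (hr s).1 hs
      obtain ⟨K, b, x, _, hb, hx, rfl⟩ := s3 s hsp
      rw [ccz_snd_op]
      have hbw : E b w := by
        rcases s1 with s1 | s1
        · exact hB.w1.1.1 a s1 b hb
        · rw [s1] at hb
          exact absurd hb (not_mem_emp b)
      exact zf.opZ (hY _ hsS).1 (zf.opZ (zf.wZ b hbw) (zf.omZ x hx))
    · rw [hcdef]
      exact cb.img _ hcdf (cb.sub s2 hrp)
  have hcp : ∀ t, E t c → ∃ y s, t = opair y s := fun t ht => by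
    obtain ⟨s, hs, rfl⟩ := (hc t).1 ht
    exact ⟨_, _, rfl⟩
  have hrc : img c (fun t : M => opair (cczV A g N (ccz_fst t)) (ccz_snd t)) = r := by
    refine ext fun z => ?_
    rw [mem_img' inferInstance]
    constructor
    · rintro ⟨t, ht, rfl⟩
      obtain ⟨s, hs, rfl⟩ := (hc t).1 ht
      obtain ⟨hsp, hsS⟩ := (hr s).1 hs
      rw [ccz_fst_op, ccz_snd_op, ← (hY _ hsS).2]
      obtain ⟨K, b, x, _, hb, hx, rfl⟩ := s3 s hsp
      rw [ccz_fst_op, ccz_snd_op]
      exact hs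
    · intro hz
      obtain ⟨hsp, hsS⟩ := (hr z).1 hz
      refine ⟨opair (app Y (ccz_fst z)) (ccz_snd z), (hc _).2 ⟨z, hz, rfl⟩, ?_⟩
      rw [ccz_fst_op, ccz_snd_op, ← (hY _ hsS).2]
      obtain ⟨K, b, x, _, hb, hx, rfl⟩ := s3 z hsp
      rw [ccz_fst_op, ccz_snd_op]
  have hempS : E (emp : M) (img Z (fun z : M => cczV A g N z)) :=
    (hS emp).2 ⟨emp, zf.eZ, (cczV_emp A g N).symm⟩
  -- the chosen member
  have hset : ∀ q, E q (sep A (fun p : M => CczAgr p r)) ↔ E q A ∧ CczAgr q r :=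
    fun q => mem_sep' inferInstance
  have hpr : CczAgr p r := by
    intro K b x h
    rw [hrE]
    constructor
    · intro h1
      refine ⟨h1, ?_⟩
      rcases h with rfl | ⟨_, b', x', h2⟩
      · exact hempS
      · exact ((hrE _ _ _).1 h2).2
    · exact fun h1 => h1.1
  have hPhi : E (cczPhi A g r) A ∧ CczAgr (cczPhi A g r) r :=
    (hset _).1 (hg _ (fun z hz => ((hset z).1 hz).1) ⟨p, (hset p).2 ⟨hp, hpr⟩⟩)
  have hcols : ∀ K, Col (cczPhi A g r) K → E K (img Z (fun z : M => cczV A g N z)) := by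
    intro K hK
    obtain ⟨n, hn, rfl⟩ := hN _ hPhi.1 K hK
    refine (hS _).2 ⟨opair c n, zf.opZ hcZ (zf.omZ n hn), ?_⟩
    rw [cczV_eq A g N hcp, hrc]
  have hagr : CczAgr p (cczPhi A g r) := by
    intro K b x h
    rcases h with rfl | ⟨h1, h2⟩
    · rw [hPhi.2 emp b x (Or.inl rfl), hpr emp b x (Or.inl rfl)]
    · have hKS := hcols K h2
      have hcr : Col r K := by
        obtain ⟨b', x', h3⟩ := h1
        exact ⟨b', x', (hrE _ _ _).2 ⟨h3, hKS⟩⟩
      rw [hPhi.2 K b x (Or.inr ⟨h2, hcr⟩), hpr K b x (Or.inr ⟨h1, hcr⟩)]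
  have heq : p = cczPhi A g r := by
    by_contra hne
    obtain ⟨u1, u2, u3⟩ := cc1_union cb hpq0 (hA.1 _ hPhi.1) hagr
    exact hA.2 p _ hp hPhi.1 hne ⟨bun p (cczPhi A g r), u1, u2, u3⟩
  refine ⟨c, hcZ, ?_⟩
  rw [app_gr hPhidf hcZ, hrc]
  exact heq

end SW.FU
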