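import Pool.Agent.H14.FRU.Stmts

/-!
# Module MXG of project FRU: maximal antichains inside a set of conditions
-/

set_option linter.unusedVariables false
set_option synthInstance.maxSize 100000

namespace SW.FU

theorem mxg_sym {M : Type} [SetStr M] [ZF M] {F : FPoset M} {p q : M} (h : CpF F p q) :
    CpF F q p := by
  obtain ⟨r, h1, h2, h3⟩ := h
  exact ⟨r, h1, h3, h2⟩

/-- maximal antichains inside a subset of a poset -/
theorem fru_mxg (hz : ZORNStmt) : MXGStmt := by
  intro M _ _ F D hD
  have hS : ∀ a : M, E a (sep (pow D) (fun a => AnF F a)) ↔ Sub a D ∧ AnF F a := fun a => by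
    rw [mem_sep' inferInstance, mem_pow]
  obtain ⟨m, hm, hmax⟩ := hz M (sep (pow D) (fun a => AnF F a))
    ⟨emp, (hS _).2 ⟨fun z h => absurd h (not_mem_emp z), fun z h => absurd h (not_mem_emp z),
      fun p q h => absurd h (not_mem_emp p)⟩⟩ (by
    intro c hc _ hchain
    refine ⟨sUn c, (hS _).2 ⟨?_, ?_, ?_⟩, fun x hx => sub_sUn hx⟩
    · intro z hz
      rw [mem_sUn] at hz
      obtain ⟨y, hy, hz⟩ := hz
      exact ((hS y).1 (hc y hy)).1 z hz
    · intro z hz
      rw [mem_sUn] at hz
      obtain ⟨y, hy, hz⟩ := hz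
      exact hD z (((hS y).1 (hc y hy)).1 z hz)
    · intro p q hp hq hpq
      rw [mem_sUn] at hp hq
      obtain ⟨x, hx, hp⟩ := hp
      obtain ⟨y, hy, hq⟩ := hq
      rcases hchain x y hx hy with h | h
      · exact ((hS y).1 (hc y hy)).2.2 p q (h p hp) hq hpq
      · exact ((hS x).1 (hc x hx)).2.2 p q hp (h q hq) hpq)
  have hm' := (hS m).1 hm
  refine ⟨m, hm'.1, hm'.2, fun d hd => ?_⟩
  by_contra hcon
  push Not at hcon
  have hdm : ¬ E d m := fun h => hcon d h ⟨d, hD d hd, F.refl d (hD d hd), F.refl d (hD d hd)⟩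
  have hins : E (ins d m) (sep (pow D) (fun a => AnF F a)) := by
    refine (hS _).2 ⟨?_, ?_, ?_⟩
    · intro z hz
      rw [mem_ins] at hz
      rcases hz with hz | rfl
      · exact hm'.1 z hz
      · exact hd
    · intro z hz
      rw [mem_ins] at hz
      rcases hz with hz | rfl
      · exact hm'.2.1 z hz
      · exact hD _ hd
    · intro p q hp hq hpq
      rw [mem_ins] at hp hq
      rcases hp with hp | rfl
      · rcases hq with hq | rfl
        · exact hm'.2.2 p q hp hq hpq
        · exact hcon p hp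
      · rcases hq with hq | rfl
        · exact fun h => hcon q hq (mxg_sym h)
        · exact absurd rfl hpq
  have := hmax _ hins (fun z hz => by rw [mem_ins]; exact Or.inl hz)
  apply hdm
  rw [← this, mem_ins]
  exact Or.inr rfl

end SW.FU
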