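import Pool.Agent.H14.FRU.Stmts

/-!
# Module NM1 of project FRU: small subsets of `H` have names in `I`
-/

set_option linter.unusedVariables false
set_option synthInstance.maxSize 100000

namespace SW.FU

theorem nm1_prod {M : Type} [SetStr M] [ZF M] {F : FPoset M} {G : M → Prop} (hG : Gen F G)
    [ZF (Ext F G)] (a b : M) : emb F G (prod a b) = prod (emb F G a) (emb F G b) := by
  have he := embF hG
  have ht := traF hG
  refine ext fun z => ⟨fun hz => ?_, fun hz => ?_⟩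
  · obtain ⟨x, hx, rfl⟩ := he.trans _ _ hz
    obtain ⟨u, v, hu, hv, rfl⟩ := mem_prod'.1 hx
    rw [ht.opair, mem_prod, he.mem, he.mem]
    exact ⟨hu, hv⟩
  · obtain ⟨u, v, hu, hv, rfl⟩ := mem_prod'.1 hz
    obtain ⟨x, hx, rfl⟩ := he.trans _ _ hu
    obtain ⟨y, hy, rfl⟩ := he.trans _ _ hv
    rw [← ht.opair, he.mem, mem_prod]
    exact ⟨hx, hy⟩

/-- NM1 -/
theorem fru_nm1 (hnng : NNGStmt) (hcc : CC1Stmt) (hzf : ZFXStmt) (hhf : HFXStmt) : NM1Stmt := by
  intro M _ _ _ w Z H I G hM hG _ u hu hV hne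
  have zf := hzf M w Z hM.bs
  have hf := hhf M w Z H hM.bs hM.th hM.clo
  have he := embF hG
  have ht := traF hG
  have hmemP : ∀ q, E q (PG1 w I).P ↔ E q (P1 w I) := fun q => Iff.rfl
  obtain ⟨e, he1, he2, he3⟩ := hnng M (PG1 w I) G (prod w om) Z H hG
    (fun a ha => hcc M w Z I a hM.bs hM.ne ha) u hu
    (by rw [nm1_prod hG, ht.om]; exact hV) hne
  have hprZ : Sub (prod (prod w om) Z) Z := by
    intro z hz
    obtain ⟨a, b, ha, hb, rfl⟩ := mem_prod'.1 hz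
    obtain ⟨c, d, hc, hd, rfl⟩ := mem_prod'.1 ha
    exact zf.opZ (zf.opZ (zf.wZ c hc) (zf.omZ d hd)) hb
  have himg : ∀ a b x : M, Sub a b → Img a x → Img b x := by
    rintro a b x hab ⟨f, hf⟩
    exact ⟨f, fun y hy => by obtain ⟨t, h1, h2⟩ := hf y hy; exact ⟨t, hab t h1, h2⟩⟩
  -- countable sets are images of `Z`
  have hcbZ : ∀ q : M, Cb q → Img Z q := by
    rintro q ⟨f, f1, f2⟩
    have hdf : Fn1 (fun n : M => the (fun y : M => E y q ∧ E (opair y n) f)) := inferInstance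
    refine ⟨gr Z (fun n : M => the (fun y : M => E y q ∧ E (opair y n) f)), fun y hy => ?_⟩
    obtain ⟨n, hn, h⟩ := f1 y hy
    refine ⟨n, zf.omZ n hn, ?_⟩
    rw [app_gr hdf (zf.omZ n hn)]
    symm
    refine the_eq ⟨hy, h⟩ ?_
    rintro y' ⟨hy', h'⟩
    exact f2 y' y n hy' hy hn h' h
  have hcond : ∀ q, E q (P1 w I) → E q H := by
    intro q hq
    obtain ⟨_, a, s1, s2, s3, _⟩ := mem_P1'.1 hq
    refine hM.clo q (fun z hz => ?_) (hcbZ q s2)
    obtain ⟨K, b, x, hK, hb, hx, rfl⟩ := s3 z hz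
    have hKH : E K H := by
      rcases hK with rfl | hK
      · exact hf.ZH _ zf.eZ
      · exact hM.sub K hK
    have hbw : E b w := by
      rcases s1 with s1 | s1
      · exact hM.bs.w1.1.1 a s1 b hb
      · rw [s1] at hb
        exact absurd hb (not_mem_emp b)
    exact hf.opH hKH (hf.opH (hf.ZH _ (zf.wZ b hbw)) (hf.ZH _ (zf.omZ x hx)))
  have heH : E e H := by
    refine hM.clo e (fun z hz => ?_) (himg _ _ _ hprZ he2)
    obtain ⟨x, q, hx, hq, rfl⟩ := he1 z hz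
    exact hf.opH hx (hcond q hq)
  have hene : e ≠ emp := by
    rintro rfl
    obtain ⟨x, hx⟩ := hne
    obtain ⟨x', hx', rfl⟩ := he.trans _ _ (hu x hx)
    obtain ⟨q, _, hq⟩ := (he3 x' hx').1 hx
    exact not_mem_emp _ hq
  have heI : E e I := by
    refine hM.max e heH (fun t ht => ?_) hene
    obtain ⟨x, q, hx, hq, rfl⟩ := he1 t ht
    exact ⟨x, q, rfl, (mem_P1'.1 hq).1⟩
  have hRdf : Cl2 (fun p z : M => ∃ K x : M, z = opair K x ∧ E (opair x p) K) := inferInstance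
  refine ⟨emb (PG1 w I) G e, (he.mem _ _).2 heI, fun x => ?_⟩
  unfold RR
  rw [mem_mk_Nmx hG hRdf]
  constructor
  · intro hx
    obtain ⟨x', hx', rfl⟩ := he.trans _ _ (hu x hx)
    obtain ⟨q, hqG, hq⟩ := (he3 x' hx').1 hx
    exact ⟨q, opair e x', hqG, mem_prod.2 ⟨heI, hx'⟩, ⟨e, x', rfl, hq⟩, (ht.opair _ _).symm⟩
  · rintro ⟨q, z, hqG, hz, ⟨K, x', rfl, hq⟩, h⟩
    rw [ht.opair, opair_inj, he.inj] at h
    obtain ⟨rfl, rfl⟩ := h
    exact (he3 x' (mem_prod.1 hz).2).2 ⟨q, hqG, hq⟩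

end SW.FU
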