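import Pool.Agent.H14.FRU.Stmts

/-!
# Module NNG of project FRU: nice names for images of a set of the ground model
-/

set_option linter.unusedVariables false
set_option synthInstance.maxSize 100000

namespace SW.FU

section
variable {M : Type} [SetStr M] [ZF M]

/-- covering from a class relation -/
theorem nng_img {z a : M} {R : M → M → Prop} (hR : Cl2 R)
    (h1 : ∀ y, E y a → ∃ x, E x z ∧ R y x)
    (h2 : ∀ y y' x, E y a → E y' a → E x z → R y x → R y' x → y = y') : Img z a := by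
  have hC : Cl (fun t : M => ∃ x y : M, t = opair x y ∧ R y x) := inferInstance
  have key : ∀ x y, E (opair x y) (sep (prod z a) (fun t => ∃ x y : M, t = opair x y ∧ R y x)) ↔
      (E x z ∧ E y a) ∧ R y x := by
    intro x y
    rw [mem_sep' hC, mem_prod]
    refine and_congr_right fun _ => ?_
    constructor
    · rintro ⟨x', y', h, hr⟩
      rw [opair_inj] at h
      rw [h.1, h.2]
      exact hr
    · intro h
      exact ⟨x, y, rfl, h⟩
  refine ⟨sep (prod z a) (fun t => ∃ x y : M, t = opair x y ∧ R y x), fun y hy => ?_⟩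
  obtain ⟨x, hx, hr⟩ := h1 y hy
  refine ⟨x, hx, ?_⟩
  unfold app
  symm
  apply the_eq (p := fun w => E (opair x w)
    (sep (prod z a) (fun t => ∃ x y : M, t = opair x y ∧ R y x))) ((key x y).2 ⟨⟨hx, hy⟩, hr⟩)
  intro y' hy'
  obtain ⟨⟨_, hy'⟩, hr'⟩ := (key x y').1 hy'
  exact h2 y' y x hy' hy hx hr' hr

end

/-- choice for class relations -/
theorem nng_chs (hacf : ACFStmt) {M : Type} [SetStr M] [ZFC M] (a : M) (R : M → M → Prop)
    (hR : Cl2 R) (h : ∀ x, E x a → ∃ y, R x y) : ∃ g, ∀ x, E x a → R x (app g x) := by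
  obtain ⟨b, hb⟩ := collF R hR a h
  obtain ⟨g0, hg0⟩ := hacf M b
  have hm : ∀ x y, E y (sep b (fun y : M => R x y)) ↔ E y b ∧ R x y :=
    fun x y => mem_sep' inferInstance
  refine ⟨gr a (fun x : M => app g0 (sep b (fun y : M => R x y))), fun x hx => ?_⟩
  rw [app_gr inferInstance hx]
  obtain ⟨y, hy, hy'⟩ := hb x hx
  exact ((hm x _).1 (hg0 _ (fun z hz => ((hm x z).1 hz).1) ⟨y, (hm x y).2 ⟨hy, hy'⟩⟩)).2

/-- the second variable is a partial function on the first -/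
def QNng (N : Type) [SetStr N] (v : Fin 2 → N) : Prop :=
  ∀ b y y', E b (v 0) → PairIn b y (v 1) → PairIn b y' (v 1) → y = y'

instance : UDf QNng := by unfold QNng; infer_instance

/-- NNG -/
theorem fru_nng (hmx : MXGStmt) (hacf : ACFStmt) : NNGStmt := by
  intro M _ _ _ F G V Z H hG hcc _ u hu hV hne
  have hs : FSFacts F := semF F
  have he := embF hG
  have gf := genF hG
  obtain ⟨f0, hf0⟩ := hV
  -- the function with values in `u`
  obtain ⟨f, hf⟩ : ∃ f : Ext F G, ∀ b y, E (opair b y) f ↔ (E b (emb F G V) ∧ E y u) ∧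
      y = app f0 b := by
    refine ⟨sep (prod (emb F G V) u) (fun z => ∃ b y : Ext F G, z = opair b y ∧ y = app f0 b),
      fun b y => ?_⟩
    rw [mem_sep' inferInstance, mem_prod]
    refine and_congr_right fun _ => ?_
    constructor
    · rintro ⟨b', y', h4, h5⟩
      rw [opair_inj] at h4
      rw [h4.1, h4.2]
      exact h5
    · intro h4
      exact ⟨b, y, rfl, h4⟩
  obtain ⟨t, rfl⟩ := Quot.exists_rep f
  change ∀ b y, E (opair b y) (mk F G t) ↔ (E b (emb F G V) ∧ E y u) ∧ y = app f0 b at hf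
  have h3 : QNng (Ext F G) (fun i => mk F G (![chk F V, t] i)) := by
    intro b y y' hb hy hy'
    have hy1 := (hf _ _).1 (pairIn_iff.1 hy)
    have hy2 := (hf _ _).1 (pairIn_iff.1 hy')
    rw [hy1.2, hy2.2]
  obtain ⟨p0, hp0G, hp0⟩ := (hs.truth QNng G hG ![chk F V, t]).1 h3
  have hp0P : E p0 F.P := hG.sub p0 hp0G
  have hFP := FP_df F hs
  have _ : ∀ {n : ℕ} {r s w : (Fin n → M) → M} [DfT r] [DfT s] [DfT w],
      Df (fun v => FP F (r v) (chk F (s v)) (chk F (w v)) t) := fun {n r s w} _ _ _ =>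
    Df.comp4 (R := fun q z c a => FP F q z c a) hFP inferInstance inferInstance inferInstance
      inferInstance
  let R : M → M → M → Prop := fun b x q =>
    E q F.P ∧ F.le q p0 ∧ FP F q (chk F b) (chk F x) t
  have _ : ∀ {n : ℕ} {r s w : (Fin n → M) → M} [DfT r] [DfT s] [DfT w],
      Df (fun v => R (r v) (s v) (w v)) := by
    intro n r s w _ _ _
    simp only [R]
    infer_instance
  have hRu : ∀ b x x' q, E b V → R b x q → R b x' q → x = x' := by
    rintro b x x' q hb ⟨hq, hqp, hqf⟩ ⟨_, _, hqf'⟩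
    obtain ⟨G', hG', hqG'⟩ := hs.ex q hq
    have he' := embF hG'
    have h4 := hG'.up q p0 hqG' hp0P hqp
    have h5 : QNng (Ext F G') (fun i => mk F G' (![chk F V, t] i)) := hp0 G' hG' h4
    have h6 := h5 (emb F G' b) (emb F G' x) (emb F G' x') ((he'.mem _ _).2 hb)
      (hqf.pair hG' hqG') (hqf'.pair hG' hqG')
    exact (he'.inj _ _).1 h6
  have hRm : ∀ b x q r, R b x q → E r F.P → F.le r q → R b x r := by
    rintro b x q r ⟨hq, hqp, hqf⟩ hr hrq
    exact ⟨hr, F.trans r q p0 hr hq hp0P hrq hqp, hqf.mono hq hrq⟩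
  -- the antichains
  have hDm : ∀ b q, E q (sep F.P (fun q : M => ∃ x : M, E x H ∧ R b x q)) ↔
      E q F.P ∧ ∃ x : M, E x H ∧ R b x q := fun b q => mem_sep' inferInstance
  obtain ⟨A, hA⟩ := nng_chs hacf V (fun b a : M =>
      Sub a (sep F.P (fun q : M => ∃ x : M, E x H ∧ R b x q)) ∧ AnF F a ∧
      ∀ d : M, E d (sep F.P (fun q : M => ∃ x : M, E x H ∧ R b x q)) →
        ∃ q : M, E q a ∧ CpF F q d)
    inferInstance (fun b hb => hmx M F _ (fun z hz => ((hDm b z).1 hz).1))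
  obtain ⟨N, hN⟩ := nng_chs hacf V (fun b g : M =>
      ∀ y : M, E y (app A b) → ∃ x : M, E x Z ∧ y = app g x) inferInstance
    (fun b hb => hcc _ (hA b hb).2.1)
  have hem : ∀ z, E z (sep (prod H F.P) (fun z : M => ∃ b x q : M, E b V ∧ z = opair x q ∧
      E q (app A b) ∧ R b x q)) ↔ E z (prod H F.P) ∧ ∃ b x q : M, E b V ∧ z = opair x q ∧
      E q (app A b) ∧ R b x q := fun z => mem_sep' inferInstance
  have hem' : ∀ x q, E (opair x q) (sep (prod H F.P) (fun z : M => ∃ b x q : M, E b V ∧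
      z = opair x q ∧ E q (app A b) ∧ R b x q)) ↔ (E x H ∧ E q F.P) ∧ ∃ b : M, E b V ∧
      E q (app A b) ∧ R b x q := by
    intro x q
    rw [hem, mem_prod]
    refine and_congr_right fun _ => ?_
    constructor
    · rintro ⟨b, x', q', hb, h1, h2, h3⟩
      rw [opair_inj] at h1
      rw [← h1.2] at h2
      rw [← h1.1, ← h1.2] at h3
      exact ⟨b, hb, h2, h3⟩
    · rintro ⟨b, hb, h2, h3⟩
      exact ⟨b, x, q, hb, rfl, h2, h3⟩
  refine ⟨sep (prod H F.P) (fun z : M => ∃ b x q : M, E b V ∧ z = opair x q ∧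
      E q (app A b) ∧ R b x q), ?_, ?_, ?_⟩
  · intro z hz
    obtain ⟨h1, b, x, q, hb, rfl, h2, h3⟩ := (hem z).1 hz
    rw [mem_prod] at h1
    exact ⟨x, q, h1.1, h1.2, rfl⟩
  · refine nng_img (R := fun y s => ∃ b x z : M, E b V ∧ s = opair b z ∧
      y = opair x (app (app N b) z) ∧ R b x (app (app N b) z)) inferInstance ?_ ?_
    · intro y hy
      obtain ⟨h1, b, x, q, hb, rfl, h2, h3⟩ := (hem y).1 hy
      obtain ⟨z, hz, rfl⟩ := hN b hb q h2
      exact ⟨opair b z, mem_prod.2 ⟨hb, hz⟩, b, x, z, hb, rfl, rfl, h3⟩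
    · rintro y y' s _ _ _ ⟨b, x, z, hb, rfl, rfl, h3⟩ ⟨b', x', z', hb', h, rfl, h3'⟩
      rw [opair_inj] at h
      obtain ⟨rfl, rfl⟩ := h
      rw [hRu b x x' _ hb h3 h3']
  · intro x hx
    constructor
    · intro hxu
      obtain ⟨b', hb', e1⟩ := hf0 _ hxu
      obtain ⟨b, hb, rfl⟩ := he.trans _ _ hb'
      have h4 : PairIn (emb F G b) (emb F G x) (mk F G t) :=
        pairIn_iff.2 ((hf _ _).2 ⟨⟨hb', hxu⟩, e1⟩)
      obtain ⟨q0, hq0G, hq0⟩ := FP.truth hG hs h4
      obtain ⟨q1, hq1G, hq10, hq1p⟩ := hG.dir q0 p0 hq0G hp0G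
      have hR1 : R b x q1 := ⟨hG.sub q1 hq1G, hq1p, hq0.mono (hG.sub q0 hq0G) hq10⟩
      obtain ⟨r, hrG, hr⟩ := gf.meetC (fun r : M => (∃ q : M, E q (app A b) ∧ F.le r q) ∨
        ∀ q : M, E q (app A b) → ¬ CpF F r q) inferInstance (by
          intro p hp
          by_cases h : ∃ q : M, E q (app A b) ∧ CpF F p q
          · obtain ⟨q, hq, r, h1, h2, h3⟩ := h
            exact ⟨r, h1, h2, Or.inl ⟨q, hq, h3⟩⟩
          · push Not at h
            exact ⟨p, hp, F.refl p hp, Or.inr h⟩)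
      rcases hr with ⟨q, hq, hrq⟩ | hr
      · have hqD := (hDm b q).1 ((hA b hb).1 q hq)
        obtain ⟨hqP, x', hx', hR'⟩ := hqD
        have hqG : G q := hG.up r q hrG hqP hrq
        have h5 : PairIn (emb F G b) (emb F G x') (mk F G t) := hR'.2.2.pair hG hqG
        have h6 : emb F G x = emb F G x' := by
          rw [((hf _ _).1 (pairIn_iff.1 h4)).2, ((hf _ _).1 (pairIn_iff.1 h5)).2]
        have h7 := (he.inj _ _).1 h6
        subst h7
        exact ⟨q, hqG, (hem' x q).2 ⟨⟨hx, hqP⟩, b, hb, hq, hR'⟩⟩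
      · exfalso
        obtain ⟨s, hsG, hsr, hs1⟩ := hG.dir r q1 hrG hq1G
        have hsP := hG.sub s hsG
        obtain ⟨q, hq, r', h1, h2, h3⟩ := (hA b hb).2.2 s ((hDm b s).2 ⟨hsP, x, hx,
          hRm b x q1 s hR1 hsP hs1⟩)
        exact hr q hq ⟨r', h1, F.trans r' s r h1 hsP (hG.sub r hrG) h3 hsr, h2⟩
    · rintro ⟨q, hqG, hq⟩
      obtain ⟨_, b, hb, h2, h3⟩ := (hem' x q).1 hq
      have h5 : PairIn (emb F G b) (emb F G x) (mk F G t) := h3.2.2.pair hG hqG
      exact ((hf _ _).1 (pairIn_iff.1 h5)).1.2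

end SW.FU
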